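import Mathlib

set_option autoImplicit false

namespace Pool.Agent.Results.MP_45d43b_an.PeriodicOrbits

open Filter Topology Function Metric Set

/-- The real Banach space `c₀` of real sequences tending to `0`, with the supremum norm. -/
abbrev C0 : Type := ZeroAtInftyContinuousMap ℕ ℝ

/-- The positive part of the unit ball of `c₀`: all sequences of `c₀` with values in `[0, 1]`. -/
def cube : Set C0 := {x | ∀ i, 0 ≤ x i ∧ x i ≤ 1}

/-- A subset of `c₀` is relatively weakly compact if its closure in the weak topology of `c₀` is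
weakly compact. -/
def RelWeaklyCompact (A : Set C0) : Prop :=
  IsCompact (closure (toWeakSpace ℝ C0 '' A))

/-- A representation of the commutative semigroup `S` as nonexpansive self-maps of `C`:
`T (s * t) = T s ∘ T t`, and every `T s : C → C` is nonexpansive. -/
structure IsNonexpansiveRep {S : Type} [CommSemigroup S] {C : Set C0} (T : S → C → C) : Prop where
  nonexpansive : ∀ s x y, ‖(T s x : C0) - T s y‖ ≤ ‖(x : C0) - y‖
  map_mul : ∀ s t, T (s * t) = T s ∘ T t

/-- Q1 for the set `C` and the semigroup `S`: every representation of `S` as nonexpansive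
self-maps of `C` with a relatively weakly compact orbit has a common fixed point. -/
def Q1For (S : Type) [CommSemigroup S] (C : Set C0) : Prop :=
  ∀ T : S → C → C, IsNonexpansiveRep T →
    (∃ c : C, RelWeaklyCompact (Set.range fun s => (T s c : C0))) →
    ∃ x : C, ∀ s, T s x = x

/-! ### The sequences and the map -/

lemma tendsto_coc (f : ℕ → ℝ) :
    Tendsto f (cocompact ℕ) (𝓝 0) ↔ Tendsto f atTop (𝓝 0) := by
  rw [cocompact_eq_cofinite, Nat.cofinite_eq_atTop]

lemma tendsto_zero (x : C0) : Tendsto (fun i => x i) atTop (𝓝 0) :=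
  (tendsto_coc x).1 x.zero_at_infty'

/-- The first `n` coordinates. -/
def blk (n : ℕ) (x : C0) : Fin n → ℝ := fun i => x i

/-- The unit vectors of `ℝⁿ`. -/
def orb (n : ℕ) : Set (Fin n → ℝ) := Set.range fun j : Fin n => Pi.single j (1 : ℝ)

/-- The distance of the block of the first `n` coordinates to the set of unit vectors. -/
noncomputable def dst (n : ℕ) (x : C0) : ℝ := infDist (blk n x) (orb n)

/-- The sequence `(x (n-1), x 0, …, x (n-2), dst n x, x n, x (n+1), …)`. -/
noncomputable def stepFun (n : ℕ) (x : C0) : ℕ → ℝ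
  | 0 => x (n - 1)
  | (i + 1) => if i + 1 = n then dst n x else x i

/-- The nonexpansive map: the first `n` coordinates are rotated, the distance of the block of the
first `n` coordinates to the set of unit vectors of `ℝⁿ` is written into coordinate `n`, and the
other coordinates are shifted. -/
noncomputable def step (n : ℕ) (x : C0) : C0 where
  toFun := stepFun n x
  continuous_toFun := continuous_of_discreteTopology
  zero_at_infty' := by
    rw [tendsto_coc, ← tendsto_add_atTop_iff_nat 1]
    refine (tendsto_zero x).congr' ?_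
    filter_upwards [eventually_ge_atTop n] with i hi
    rw [stepFun, if_neg (by omega)]

lemma step_zero (n : ℕ) (x : C0) : step n x 0 = x (n - 1) := rfl

lemma step_succ (n : ℕ) (x : C0) (i : ℕ) :
    step n x (i + 1) = if i + 1 = n then dst n x else x i := rfl

lemma dist_coord (x y : C0) (i : ℕ) : |x i - y i| ≤ dist x y := by
  have := BoundedContinuousFunction.dist_coe_le_dist (f := x.toBCF) (g := y.toBCF) i
  rw [ZeroAtInftyContinuousMap.dist_toBCF_eq_dist] at this
  rw [← Real.dist_eq]
  exact this

lemma dist_dst (n : ℕ) (x y : C0) : |dst n x - dst n y| ≤ dist x y := by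
  have h1 : |dst n x - dst n y| ≤ dist (blk n x) (blk n y) := by
    have := (lipschitz_infDist_pt (orb n)).dist_le_mul (blk n x) (blk n y)
    rw [Real.dist_eq] at this
    simpa [dst] using this
  refine h1.trans ?_
  rw [dist_pi_le_iff dist_nonneg]
  intro i
  rw [Real.dist_eq]
  exact dist_coord x y i

lemma dist_step (n : ℕ) (x y : C0) : dist (step n x) (step n y) ≤ dist x y := by
  rw [← ZeroAtInftyContinuousMap.dist_toBCF_eq_dist (f := step n x)]
  rw [BoundedContinuousFunction.dist_le dist_nonneg]
  intro i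
  rw [Real.dist_eq]
  match i with
  | 0 =>
    change |step n x 0 - step n y 0| ≤ _
    rw [step_zero, step_zero]
    exact dist_coord x y _
  | (i + 1) =>
    change |step n x (i + 1) - step n y (i + 1)| ≤ _
    rw [step_succ, step_succ]
    split_ifs
    · exact dist_dst n x y
    · exact dist_coord x y i

lemma dist_iter (n d : ℕ) (x y : C0) : dist ((step n)^[d] x) ((step n)^[d] y) ≤ dist x y := by
  induction d generalizing x y with
  | zero => simp
  | succ d ih =>
    rw [iterate_succ_apply, iterate_succ_apply]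
    exact (ih _ _).trans (dist_step n x y)

/-! ### The cube -/

lemma cube_nonempty : cube.Nonempty := ⟨0, fun i => by simp⟩

lemma cube_convex : Convex ℝ cube := by
  intro x hx y hy a b ha hb hab i
  have e : (a • x + b • y) i = a * x i + b * y i := by simp
  rw [e]
  constructor
  · have := mul_nonneg ha (hx i).1
    have := mul_nonneg hb (hy i).1
    linarith
  · have := mul_le_mul_of_nonneg_left (hx i).2 ha
    have := mul_le_mul_of_nonneg_left (hy i).2 hb
    linarith

lemma continuous_coord (i : ℕ) : Continuous fun x : C0 => x i := by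
  refine LipschitzWith.continuous (K := 1) (LipschitzWith.of_dist_le_mul fun x y => ?_)
  rw [Real.dist_eq, NNReal.coe_one, one_mul]
  exact dist_coord x y i

lemma cube_closed : IsClosed cube := by
  have : cube = ⋂ i, ({x : C0 | 0 ≤ x i} ∩ {x : C0 | x i ≤ 1}) := by
    ext x
    simp [cube]
  rw [this]
  exact isClosed_iInter fun i => (isClosed_le continuous_const (continuous_coord i)).inter
    (isClosed_le (continuous_coord i) continuous_const)

lemma cube_norm {x : C0} (hx : x ∈ cube) : ‖x‖ ≤ 1 := by
  rw [← dist_zero_right, ← ZeroAtInftyContinuousMap.dist_toBCF_eq_dist,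
    BoundedContinuousFunction.dist_le zero_le_one]
  intro i
  rw [Real.dist_eq]
  change |x i - (0 : C0) i| ≤ 1
  rw [ZeroAtInftyContinuousMap.coe_zero, Pi.zero_apply, sub_zero, abs_le]
  have := hx i
  constructor <;> linarith

lemma dst_nonneg (n : ℕ) (x : C0) : 0 ≤ dst n x := infDist_nonneg

lemma dst_le_one {n : ℕ} (hn : 0 < n) {x : C0} (hx : x ∈ cube) : dst n x ≤ 1 := by
  have hm : (Pi.single ⟨0, hn⟩ (1 : ℝ) : Fin n → ℝ) ∈ orb n := ⟨⟨0, hn⟩, rfl⟩
  refine (infDist_le_dist_of_mem hm).trans ?_
  rw [dist_pi_le_iff zero_le_one]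
  intro i
  rw [Real.dist_eq, abs_le]
  have h := hx i
  by_cases hi : i = ⟨0, hn⟩
  · subst hi
    rw [Pi.single_eq_same]
    change -1 ≤ x 0 - 1 ∧ x 0 - 1 ≤ 1
    have h := hx 0
    constructor <;> linarith
  · rw [Pi.single_eq_of_ne hi]
    change -1 ≤ x i - 0 ∧ x i - 0 ≤ 1
    constructor <;> linarith

lemma step_cube {n : ℕ} (hn : 0 < n) {x : C0} (hx : x ∈ cube) : step n x ∈ cube := by
  intro i
  match i with
  | 0 => rw [step_zero]; exact hx _
  | (i + 1) =>
    rw [step_succ]
    split_ifs
    · exact ⟨dst_nonneg n x, dst_le_one hn hx⟩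
    · exact hx i

lemma iter_cube {n : ℕ} (hn : 0 < n) (d : ℕ) {x : C0} (hx : x ∈ cube) :
    (step n)^[d] x ∈ cube := by
  induction d generalizing x with
  | zero => exact hx
  | succ d ih => rw [iterate_succ_apply]; exact ih (step_cube hn hx)

/-! ### The periodic orbit -/

/-- The unit vectors of `c₀`. -/
noncomputable def e (j : ℕ) : C0 where
  toFun := fun i => if i = j then 1 else 0
  continuous_toFun := continuous_of_discreteTopology
  zero_at_infty' := by
    rw [tendsto_coc]
    refine tendsto_const_nhds.congr' ?_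
    filter_upwards [eventually_gt_atTop j] with i hi
    rw [if_neg (by omega)]

lemma e_apply (j i : ℕ) : e j i = if i = j then 1 else 0 := rfl

lemma e_cube (j : ℕ) : e j ∈ cube := by
  intro i
  rw [e_apply]
  split_ifs <;> norm_num

lemma e_inj {j j' : ℕ} (h : e j = e j') : j = j' := by
  have := congrArg (fun x : C0 => x j) h
  simp only [e_apply, if_true] at this
  by_contra hne
  rw [if_neg hne] at this
  exact one_ne_zero this

lemma dst_e {n j : ℕ} (hj : j < n) : dst n (e j) = 0 := by
  have hm : blk n (e j) ∈ orb n := by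
    refine ⟨⟨j, hj⟩, ?_⟩
    funext i
    rw [blk, e_apply]
    by_cases hi : i = ⟨j, hj⟩
    · subst hi
      simp
    · change (Pi.single ⟨j, hj⟩ (1 : ℝ) : Fin n → ℝ) i = _
      rw [Pi.single_eq_of_ne hi, if_neg]
      intro h
      exact hi (Fin.ext h)
  exact infDist_zero_of_mem hm

lemma step_e {n : ℕ} (hn : 0 < n) (j : ℕ) : step n (e (j % n)) = e ((j + 1) % n) := by
  have hj : j % n < n := Nat.mod_lt _ hn
  have h1 : (j + 1) % n = if j % n + 1 = n then 0 else j % n + 1 := by
    rw [Nat.add_mod]
    by_cases h : n = 1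
    · subst h
      simp [Nat.mod_one]
    · have h1 : 1 % n = 1 := Nat.mod_eq_of_lt (by omega)
      rw [h1]
      split_ifs with h2
      · rw [h2, Nat.mod_self]
      · exact Nat.mod_eq_of_lt (by omega)
  by_cases h2 : j % n + 1 = n
  · rw [if_pos h2] at h1
    ext i
    match i with
    | 0 => rw [step_zero, e_apply, e_apply, h1, if_pos (by omega), if_pos rfl]
    | (i + 1) =>
      rw [step_succ, dst_e hj, e_apply, e_apply, h1, if_neg (Nat.succ_ne_zero i)]
      by_cases h3 : i + 1 = n
      · rw [if_pos h3]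
      · rw [if_neg h3, if_neg (by omega)]
  · rw [if_neg h2] at h1
    ext i
    match i with
    | 0 => rw [step_zero, e_apply, e_apply, h1, if_neg (by omega), if_neg (by omega)]
    | (i + 1) =>
      rw [step_succ, dst_e hj, e_apply, e_apply, h1]
      by_cases h3 : i + 1 = n
      · rw [if_pos h3, if_neg (by omega)]
      · rw [if_neg h3]
        by_cases h4 : i = j % n
        · rw [if_pos h4, if_pos (by omega)]
        · rw [if_neg h4, if_neg (by omega)]

lemma iter_e {n : ℕ} (hn : 0 < n) (d j : ℕ) : (step n)^[d] (e (j % n)) = e ((j + d) % n) := by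
  induction d generalizing j with
  | zero => rfl
  | succ d ih =>
    rw [iterate_succ_apply, step_e hn, ih]
    congr 2
    omega

lemma iter_e_zero {n : ℕ} (hn : 0 < n) (d : ℕ) : (step n)^[d] (e 0) = e (d % n) := by
  have := iter_e hn d 0
  rwa [Nat.zero_mod, Nat.zero_add] at this

lemma minimalPeriod_e {n : ℕ} (hn : 0 < n) : minimalPeriod (step n) (e 0) = n := by
  have h1 : IsPeriodicPt (step n) n (e 0) := by
    rw [IsPeriodicPt, IsFixedPt, iter_e_zero hn, Nat.mod_self]
  refine Nat.dvd_antisymm h1.minimalPeriod_dvd ?_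
  have h2 : (step n)^[minimalPeriod (step n) (e 0)] (e 0) = e 0 :=
    iterate_minimalPeriod
  rw [iter_e_zero hn] at h2
  exact Nat.dvd_of_mod_eq_zero (e_inj h2)

/-! ### Fixed points of the iterates -/

lemma iter_shift (n d : ℕ) (x : C0) (i : ℕ) (hi : n ≤ i) : (step n)^[d] x (i + d) = x i := by
  induction d with
  | zero => rfl
  | succ d ih =>
    rw [iterate_succ_apply', ← Nat.add_assoc, step_succ, if_neg (by omega), ih]

lemma tail_zero {n d : ℕ} (hd : 0 < d) {x : C0} (hx : (step n)^[d] x = x) (i : ℕ) (hi : n ≤ i) :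
    x i = 0 := by
  have h1 : ∀ k : ℕ, x (i + k * d) = x i := by
    intro k
    induction k with
    | zero => simp
    | succ k ih =>
      have h2 := iter_shift n d x (i + k * d) (by omega)
      rw [hx] at h2
      rw [← ih, ← h2]
      congr 1
      ring
  have h2 : Tendsto (fun k : ℕ => x (i + k * d)) atTop (𝓝 0) := by
    refine (tendsto_zero x).comp ?_
    refine tendsto_atTop_mono (fun k => ?_) tendsto_id
    have : k * 1 ≤ k * d := Nat.mul_le_mul_left k hd
    simp only [id]
    omega
  have h3 : Tendsto (fun _ : ℕ => x i) atTop (𝓝 0) := h2.congr h1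
  exact tendsto_nhds_unique tendsto_const_nhds h3

/-- If an iterate of positive order `d` has a fixed point, then `n` divides `d`. -/
lemma dvd_of_fixed {n d : ℕ} (hn : 0 < n) (hd : 0 < d) {x : C0} (hx : (step n)^[d] x = x) :
    n ∣ d := by
  have h0 : dst n x = 0 := by
    have h1 : (step n)^[d] (step n x) = step n x := by
      rw [← iterate_succ_apply, iterate_succ_apply', hx]
    have h2 := tail_zero hd h1 n le_rfl
    obtain ⟨m, rfl⟩ : ∃ m, n = m + 1 := ⟨n - 1, by omega⟩
    rw [step_succ, if_pos rfl] at h2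
    exact h2
  have hcl : IsClosed (orb n) := (Set.finite_range _).isClosed
  have hne : (orb n).Nonempty := ⟨_, ⟨⟨0, hn⟩, rfl⟩⟩
  have h1 : blk n x ∈ orb n := (hcl.mem_iff_infDist_zero hne).2 h0
  obtain ⟨j, hj⟩ := h1
  have hxe : x = e (j % n) := by
    ext i
    rw [Nat.mod_eq_of_lt j.2, e_apply]
    by_cases hi : i < n
    · have h2 := congrFun hj ⟨i, hi⟩
      simp only [blk] at h2
      rw [← h2]
      by_cases hij : i = j
      · subst hij
        simp
      · rw [if_neg hij, Pi.single_eq_of_ne]
        intro h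
        exact hij (congrArg Fin.val h)
    · rw [tail_zero hd hx i (by omega), if_neg (by have := j.2; omega)]
  rw [hxe, iter_e hn] at hx
  have h3 := e_inj hx
  exact (Nat.modEq_zero_iff_dvd).1 (Nat.ModEq.add_left_cancel' (j : ℕ) (by
    rw [Nat.ModEq, Nat.add_zero]; exact h3))

/-! ### Representations -/

/-- The map `step n`, iterated `d` times, as a self-map of the cube. -/
noncomputable def stepC {n : ℕ} (hn : 0 < n) (d : ℕ) (x : cube) : cube :=
  ⟨(step n)^[d] x, iter_cube hn d x.2⟩

lemma rwc_of_finite {A : Set C0} (hA : A.Finite) : RelWeaklyCompact A :=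
  IsCompact.closure (hA.image _).isCompact

lemma rep {S : Type} [CommSemigroup S] (φ : S → ℕ) (hφ : ∀ s t, φ (s * t) = φ s + φ t) {n : ℕ}
    (hn : 0 < n) : IsNonexpansiveRep (fun s => stepC hn (φ s)) := by
  refine ⟨fun s x y => ?_, fun s t => ?_⟩
  · rw [← dist_eq_norm, ← dist_eq_norm]
    exact dist_iter n (φ s) x y
  · funext x
    apply Subtype.ext
    change (step n)^[φ (s * t)] x = (step n)^[φ s] ((step n)^[φ t] x)
    rw [hφ, iterate_add_apply]

lemma orbit_finite {S : Type} [CommSemigroup S] (φ : S → ℕ) {n : ℕ} (hn : 0 < n) :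
    (Set.range fun s => (stepC hn (φ s) ⟨e 0, e_cube 0⟩ : C0)).Finite := by
  refine Set.Finite.subset (Set.finite_range fun j : Fin n => e j) ?_
  rintro _ ⟨s, rfl⟩
  refine ⟨⟨φ s % n, Nat.mod_lt _ hn⟩, ?_⟩
  change _ = (step n)^[φ s] (e 0)
  rw [iter_e_zero hn]

/-- **Q1 has a negative answer in a strong form.**

(1) The set `cube = {x ∈ c₀ : 0 ≤ x i ≤ 1 for all i}` is nonempty, closed, convex and bounded.

(2) For every `n ≥ 1` there is a map `T : c₀ → c₀`, nonexpansive on the whole space, with
`T (cube) ⊆ cube`, which has a periodic orbit with exactly `n` points in `cube`, and such that the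
iterate `T^d`, `d ≥ 1`, has a fixed point in `c₀` only if `n` divides `d`. (In particular for
`n ≥ 2` the map `T` has no fixed point at all.)

(3) For every commutative semigroup `S` with a nonzero homomorphism to `(ℕ, +)` (for example every
nonzero additive semigroup of vectors of nonnegative integers) Q1 fails for the pair `(S, cube)`:
there is a representation of `S` as nonexpansive self-maps of `cube` with a finite, hence norm
compact, hence relatively weakly compact, orbit and without common fixed point.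

(4) Q1 fails. -/
theorem result :
    (cube.Nonempty ∧ IsClosed cube ∧ Convex ℝ cube ∧ ∀ x ∈ cube, ‖x‖ ≤ 1) ∧
    (∀ n : ℕ, 1 ≤ n → ∃ T : C0 → C0, (∀ x y, ‖T x - T y‖ ≤ ‖x - y‖) ∧ (∀ x ∈ cube, T x ∈ cube) ∧
      (∃ c ∈ cube, minimalPeriod T c = n) ∧ ∀ d : ℕ, 1 ≤ d → (∃ x, T^[d] x = x) → n ∣ d) ∧
    (∀ (S : Type) [CommSemigroup S] (φ : S → ℕ), (∀ s t, φ (s * t) = φ s + φ t) →
      (∃ s, φ s ≠ 0) → ∃ T : S → cube → cube, IsNonexpansiveRep T ∧
        (∃ c : cube, (Set.range fun s => (T s c : C0)).Finite ∧
          RelWeaklyCompact (Set.range fun s => (T s c : C0))) ∧ ¬ ∃ x : cube, ∀ s, T s x = x) ∧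
    ¬ ∀ (C : Set C0), C.Nonempty → IsClosed C → Convex ℝ C →
      ∀ (S : Type) [CommSemigroup S], Q1For S C := by
  have h3 : ∀ (S : Type) [CommSemigroup S] (φ : S → ℕ), (∀ s t, φ (s * t) = φ s + φ t) →
      (∃ s, φ s ≠ 0) → ∃ T : S → cube → cube, IsNonexpansiveRep T ∧
        (∃ c : cube, (Set.range fun s => (T s c : C0)).Finite ∧
          RelWeaklyCompact (Set.range fun s => (T s c : C0))) ∧
        ¬ ∃ x : cube, ∀ s, T s x = x := by
    intro S _ φ hφ hs
    obtain ⟨s, hs⟩ := hs
    have hn : 0 < φ s + 1 := Nat.succ_pos _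
    refine ⟨fun t => stepC hn (φ t), rep φ hφ hn, ⟨⟨e 0, e_cube 0⟩, orbit_finite φ hn,
      rwc_of_finite (orbit_finite φ hn)⟩, ?_⟩
    rintro ⟨x, hx⟩
    have h1 : (step (φ s + 1))^[φ s] (x : C0) = x := congrArg Subtype.val (hx s)
    have h2 := dvd_of_fixed hn (Nat.pos_of_ne_zero hs) h1
    have h3 := Nat.le_of_dvd (Nat.pos_of_ne_zero hs) h2
    omega
  refine ⟨⟨cube_nonempty, cube_closed, cube_convex, fun x hx => cube_norm hx⟩, ?_, h3, ?_⟩
  · intro n hn
    refine ⟨step n, fun x y => ?_, fun x hx => step_cube hn hx,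
      ⟨e 0, e_cube 0, minimalPeriod_e hn⟩, ?_⟩
    · rw [← dist_eq_norm, ← dist_eq_norm]
      exact dist_step n x y
    · rintro d hd ⟨x, hx⟩
      exact dvd_of_fixed hn hd hx
  · intro H
    obtain ⟨T, hT, ⟨c, hc, hc'⟩, hno⟩ := h3 (Multiplicative ℕ) Multiplicative.toAdd
      (fun s t => toAdd_mul s t) ⟨Multiplicative.ofAdd 1, by simp⟩
    exact hno (H cube cube_nonempty cube_closed cube_convex (Multiplicative ℕ) T hT ⟨c, hc'⟩)

end Pool.Agent.Results.MP_45d43b_an.PeriodicOrbits
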